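import Mathlib
import Pool.Agent.H33.BDFP.DStmts

attribute [local instance] Pool.Agent.H33.BDFP.NV.instNACG Pool.Agent.H33.BDFP.NV.instModule
  Pool.Agent.H33.BDFP.NV.instNormedSpace Pool.Agent.H33.BDFP.NV.instFD
  Pool.Agent.H33.BDFP.NV.instComplete

/-!
Polar decomposition away from zero, for a quotient map of C*-algebras; used for the modules
PAIR1 and PAIR2 of the project BDFP.
-/

open scoped ENNReal NNReal Topology

noncomputable section

namespace Pool.Agent.H3.BDFP

open Pool.Agent.H33.BDFP

section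

variable {A : Type} [CStarAlgebra A]

/-- product of two functions of `a` -/
lemma cfcM {f g : ℂ → ℂ} (hf : Continuous f) (hg : Continuous g) (a : A) :
    cfc (fun z => f z * g z) a = cfc f a * cfc g a :=
  cfc_mul f g a hf.continuousOn hg.continuousOn

/-- a normal element with a right inverse is invertible -/
lemma isUnit_of_normal_right {y r : A} (hy : IsStarNormal y) (h : y * r = 1) : IsUnit y := by
  by_contra hu
  have h0 : (0 : ℂ) ∈ spectrum ℂ y := (spectrum.zero_mem_iff ℂ).2 hu
  set ε : ℝ := 1 / (2 * (‖r‖ + 1)) with hε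
  have hr : 0 ≤ ‖r‖ := norm_nonneg r
  have hε0 : 0 < ε := by positivity
  set f : ℂ → ℂ := fun z => ((max 0 (1 - ‖z‖ / ε) : ℝ) : ℂ) with hf
  have hfc : Continuous f := by fun_prop
  have h1 : 1 ≤ ‖cfc f y‖ := by
    have := norm_apply_le_norm_cfc f y h0 hfc.continuousOn hy
    have e : f 0 = 1 := by simp [hf]
    rw [e, norm_one] at this
    exact this
  have h2 : cfc f y * y = cfc (fun z => f z * z) y := by
    rw [cfcM (g := fun z => z) hfc continuous_id y, cfc_id' ℂ y]
  have h3 : ‖cfc f y * y‖ ≤ ε := by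
    rw [h2]
    refine norm_cfc_le hε0.le fun z _ => ?_
    rw [norm_mul, hf]
    change ‖((max 0 (1 - ‖z‖ / ε) : ℝ) : ℂ)‖ * ‖z‖ ≤ ε
    rw [Complex.norm_real, Real.norm_of_nonneg (le_max_left _ _)]
    rcases le_total ‖z‖ ε with hz | hz
    · have : max 0 (1 - ‖z‖ / ε) ≤ 1 := by
        apply max_le zero_le_one
        have : 0 ≤ ‖z‖ / ε := by positivity
        linarith
      calc max 0 (1 - ‖z‖ / ε) * ‖z‖ ≤ 1 * ‖z‖ := by gcongr
        _ ≤ ε := by rw [one_mul]; exact hz
    · have : max 0 (1 - ‖z‖ / ε) = 0 := by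
        apply max_eq_left
        have : 1 ≤ ‖z‖ / ε := (one_le_div hε0).2 hz
        linarith
      rw [this, zero_mul]
      exact hε0.le
  have h4 : cfc f y = cfc f y * y * r := by rw [mul_assoc, h, mul_one]
  have h5 : ‖cfc f y‖ ≤ ε * ‖r‖ := by
    rw [h4]
    exact (norm_mul_le _ _).trans (mul_le_mul_of_nonneg_right h3 hr)
  have h6 : ε * ‖r‖ < 1 := by
    rw [hε, div_mul_eq_mul_div, one_mul, div_lt_one (by positivity)]
    linarith
  linarith

/-- a normal element with a left inverse is invertible -/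
lemma isUnit_of_normal_left {y r : A} (hy : IsStarNormal y) (h : r * y = 1) : IsUnit y := by
  have h1 : star y * star r = 1 := by rw [← star_mul, h, star_one]
  have h2 : IsUnit (star y) := isUnit_of_normal_right (by infer_instance) h1
  exact isUnit_star.1 h2

/-- functions of `y* y` as functions of `y` -/
lemma cfc_star_mul_self_real (f : ℝ → ℝ) (hf : Continuous f) (y : A) (hy : IsStarNormal y) :
    cfc f (star y * y) = cfc (fun z : ℂ => ((f (‖z‖ ^ 2) : ℝ) : ℂ)) y := by
  rw [cfc_real_eq_complex f (IsSelfAdjoint.star_mul_self y)]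
  have h1 : star y * y = cfc (fun z : ℂ => star z * z) y := by
    rw [cfcM (f := fun z => star z) (g := fun z => z) continuous_star continuous_id y,
      cfc_id' ℂ y, cfc_star_id y]
  nth_rewrite 1 [h1]
  rw [← cfc_comp' (fun z : ℂ => ((f z.re : ℝ) : ℂ)) (fun z : ℂ => star z * z) y
    (by fun_prop) (by fun_prop) hy]
  congr 1
  funext z
  congr 2
  rw [Complex.star_def, ← Complex.normSq_eq_conj_mul_self, Complex.ofReal_re,
    Complex.normSq_eq_norm_sq]

end

section

variable {B A : Type} [CStarAlgebra B] [CStarAlgebra A] (π : B →⋆ₐ[ℂ] A)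

/-- the weight `1/√(max t c²)` -/
def gfun (c t : ℝ) : ℝ := 1 / Real.sqrt (max t (c ^ 2))

/-- the cut-off `max (t - c²) 0` -/
def ffun (c t : ℝ) : ℝ := max (t - c ^ 2) 0

lemma continuous_ffun (c : ℝ) : Continuous (ffun c) := by unfold ffun; fun_prop

lemma continuous_gfun {c : ℝ} (hc : 0 < c) : Continuous (gfun c) := by
  unfold gfun
  refine continuous_const.div (by fun_prop) fun t => ?_
  have : 0 < max t (c ^ 2) := lt_max_of_lt_right (by positivity)
  exact (Real.sqrt_pos.2 this).ne'

lemma gfun_sq_mul {c : ℝ} (hc : 0 < c) (t : ℝ) :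
    (gfun c t * t * gfun c t - 1) * ffun c t = 0 := by
  rcases le_total t (c ^ 2) with h | h
  · have : ffun c t = 0 := max_eq_right (by linarith)
    rw [this, mul_zero]
  · have h1 : gfun c t = 1 / Real.sqrt t := by unfold gfun; rw [max_eq_left h]
    have ht : 0 < t := lt_of_lt_of_le (by positivity) h
    have hs : Real.sqrt t ≠ 0 := (Real.sqrt_pos.2 ht).ne'
    have h2 : gfun c t * t * gfun c t = 1 := by
      rw [h1]
      nth_rewrite 2 [← Real.mul_self_sqrt ht.le]
      field_simp
    rw [h2, sub_self, zero_mul]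

lemma gfun_norm {c : ℝ} (hc : 0 < c) {t : ℝ} (ht : 2 * c ≤ t) : gfun c (t ^ 2) * t = 1 := by
  have h1 : c ^ 2 ≤ t ^ 2 := by nlinarith
  have ht0 : 0 < t := by linarith
  unfold gfun
  rw [max_eq_left h1, Real.sqrt_sq ht0.le, one_div, inv_mul_cancel₀ ht0.ne']

/-- polar decomposition away from zero -/
theorem polar_core (hcont : Continuous π) (hsurj : Function.Surjective π)
    (hrick : ∀ Y : B, ∃ Q : B, IsStarProjection Q ∧ Q * Y = Y ∧ ∀ Z : B, Z * Y = 0 → Z * Q = 0)
    (y : A) (hy : IsStarNormal y) (η : ℝ) (hη : 0 < η) :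
    ∃ P V : B, IsStarProjection P ∧ star V * V = P ∧ V * P = V ∧ (π P = 1 → IsUnit y) ∧
      (π (V * star V) = 1 → IsUnit y) ∧
      ∀ U : B, U * P = V → ∀ k : ℂ → ℂ, Continuous k → (∀ z, ‖z‖ ≤ η → k z = 0) →
        cfc (fun z => z * k z) y = π U * cfc (fun z => (‖z‖ : ℂ) * k z) y := by
  obtain ⟨Y, hY⟩ := hsurj y
  set c : ℝ := η / 2 with hc
  have hc0 : 0 < c := by positivity
  have hηc : η = 2 * c := by rw [hc]; ring
  set T : B := star Y * Y with hT
  have hTs : IsSelfAdjoint T := IsSelfAdjoint.star_mul_self Y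
  have hF := continuous_ffun c
  have hG := continuous_gfun hc0
  set F : B := cfc (ffun c) T with hFd
  set G : B := cfc (gfun c) T with hGd
  obtain ⟨P, hP, hPF, hPZ⟩ := hrick F
  have hPs : star P = P := hP.isSelfAdjoint.star_eq
  have hPi : P * P = P := hP.isIdempotentElem
  have hGs : star G = G := (cfc_predicate (gfun c) T : IsSelfAdjoint _).star_eq
  -- `G T G P = P`
  have h1 : (G * T * G - 1) * F = 0 := by
    have e1 : G * T * G = cfc (fun t : ℝ => gfun c t * t * gfun c t) T := by
      rw [cfc_mul (fun t : ℝ => gfun c t * t) (gfun c) T (hG.mul continuous_id).continuousOn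
        hG.continuousOn, cfc_mul (gfun c) (fun t : ℝ => t) T hG.continuousOn continuousOn_id,
        cfc_id' ℝ T]
    have e2 : G * T * G - 1 = cfc (fun t : ℝ => gfun c t * t * gfun c t - 1) T := by
      rw [cfc_sub (fun t : ℝ => gfun c t * t * gfun c t) (fun _ => 1) T
        ((hG.mul continuous_id).mul hG).continuousOn continuousOn_const, ← e1,
        cfc_const_one ℝ T]
    rw [e2, hFd, ← cfc_mul (fun t : ℝ => gfun c t * t * gfun c t - 1) (ffun c) T
      (((hG.mul continuous_id).mul hG).sub continuous_const).continuousOn hF.continuousOn]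
    have e3 : (fun t : ℝ => (gfun c t * t * gfun c t - 1) * ffun c t) = fun _ => 0 :=
      funext fun t => gfun_sq_mul hc0 t
    rw [e3, cfc_const_zero ℝ T]
  have h2 : G * T * G * P = P := by
    have := hPZ _ h1
    rw [sub_mul, one_mul, sub_eq_zero] at this
    exact this
  set V : B := Y * G * P with hV
  have hVV : star V * V = P := by
    rw [hV, star_mul, star_mul, hPs, hGs]
    calc P * (G * star Y) * (Y * G * P) = P * (G * (star Y * Y) * G * P) := by noncomm_ring
      _ = P := by rw [← hT, h2, hPi]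
  have hVP : V * P = V := by rw [hV, mul_assoc, hPi]
  -- images in `A`
  set gy : ℂ → ℂ := fun z => ((gfun c (‖z‖ ^ 2) : ℝ) : ℂ) with hgy
  set fy : ℂ → ℂ := fun z => ((ffun c (‖z‖ ^ 2) : ℝ) : ℂ) with hfy
  have hgyc : Continuous gy := by
    exact Complex.continuous_ofReal.comp (hG.comp (by fun_prop))
  have hfyc : Continuous fy := by
    exact Complex.continuous_ofReal.comp (hF.comp (by fun_prop))
  have hπT : π T = star y * y := by rw [hT, map_mul, map_star, hY]
  have hπG : π G = cfc gy y := by
    rw [hGd, StarAlgHomClass.map_cfc (S := ℂ) π (gfun c) T hG.continuousOn hcont hTs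
      (by rw [hπT]; exact IsSelfAdjoint.star_mul_self y), hπT,
      cfc_star_mul_self_real _ hG y hy]
  have hπF : π F = cfc fy y := by
    rw [hFd, StarAlgHomClass.map_cfc (S := ℂ) π (ffun c) T hF.continuousOn hcont hTs
      (by rw [hπT]; exact IsSelfAdjoint.star_mul_self y), hπT,
      cfc_star_mul_self_real _ hF y hy]
  have hπV : π V = y * cfc gy y * π P := by
    rw [hV, map_mul, map_mul, hY, hπG]
  have hcomm : y * cfc gy y = cfc gy y * y := by
    have e1 : y * cfc gy y = cfc (fun z => z * gy z) y := by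
      rw [cfcM (f := fun z => z) continuous_id hgyc y, cfc_id' ℂ y]
    have e2 : cfc gy y * y = cfc (fun z => gy z * z) y := by
      rw [cfcM (g := fun z => z) hgyc continuous_id y, cfc_id' ℂ y]
    rw [e1, e2]
    congr 1
    funext z
    ring
  refine ⟨P, V, hP, hVV, hVP, ?_, ?_, ?_⟩
  · intro hp
    have e1 : star (π V) * π V = 1 := by rw [← map_star, ← map_mul, hVV, hp]
    have e2 : π V = cfc gy y * y := by rw [hπV, hp, mul_one, hcomm]
    have e3 : (star (π V) * cfc gy y) * y = 1 := by
      rw [mul_assoc, ← e2, e1]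
    exact isUnit_of_normal_left hy e3
  · intro hv
    have e1 : π V * star (π V) = 1 := by rw [← map_star, ← map_mul, hv]
    have e3 : y * (cfc gy y * π P * star (π V)) = 1 := by
      calc y * (cfc gy y * π P * star (π V)) = (y * cfc gy y * π P) * star (π V) := by
            noncomm_ring
        _ = 1 := by rw [← hπV, e1]
    exact isUnit_of_normal_right hy e3
  · intro U hU k hk hk0
    set m : ℂ → ℂ := fun z => (‖z‖ : ℂ) * k z with hm
    have hmc : Continuous m := by fun_prop
    -- `π P * m(y) = m(y)`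
    have hq : π P * cfc m y = cfc m y := by
      set k' : ℂ → ℂ := fun z => m z / ((max (ffun c (‖z‖ ^ 2)) (c ^ 2) : ℝ) : ℂ) with hk'
      have hk'c : Continuous k' := by
        refine hmc.div ?_ fun z => ?_
        · refine Complex.continuous_ofReal.comp ?_
          exact ((hF.comp (by fun_prop)).max continuous_const)
        · have : 0 < max (ffun c (‖z‖ ^ 2)) (c ^ 2) := lt_max_of_lt_right (by positivity)
          exact_mod_cast this.ne'
      have e1 : cfc m y = cfc fy y * cfc k' y := by
        rw [← cfcM hfyc hk'c y]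
        congr 1
        funext z
        rcases le_total ‖z‖ η with hz | hz
        · have : m z = 0 := by rw [hm]; simp [hk0 z hz]
          simp [hk', this]
        · have h3 : ffun c (‖z‖ ^ 2) = ‖z‖ ^ 2 - c ^ 2 := by
            unfold ffun
            apply max_eq_left
            nlinarith
          have h4 : c ^ 2 ≤ ffun c (‖z‖ ^ 2) := by rw [h3]; nlinarith
          have h5 : ((ffun c (‖z‖ ^ 2) : ℝ) : ℂ) ≠ 0 := by
            have : 0 < ffun c (‖z‖ ^ 2) := lt_of_lt_of_le (by positivity) h4
            exact_mod_cast this.ne'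
          simp only [hk', hfy]
          rw [max_eq_left h4]
          field_simp
      rw [e1, ← mul_assoc, ← hπF, ← map_mul, hPF]
    have e1 : π U * cfc m y = y * cfc gy y * cfc m y := by
      calc π U * cfc m y = π U * (π P * cfc m y) := by rw [hq]
        _ = π (U * P) * cfc m y := by rw [map_mul]; noncomm_ring
        _ = y * cfc gy y * π P * cfc m y := by rw [hU, hπV]
        _ = y * cfc gy y * (π P * cfc m y) := by noncomm_ring
        _ = _ := by rw [hq]
    rw [e1]
    have e2 : y * cfc gy y * cfc m y = cfc (fun z => z * gy z * m z) y := by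
      rw [cfcM (f := fun z => z * gy z) (continuous_id.mul hgyc) hmc y,
        cfcM (f := fun z => z) continuous_id hgyc y, cfc_id' ℂ y]
    rw [e2]
    congr 1
    funext z
    rcases le_total ‖z‖ η with hz | hz
    · simp [hm, hk0 z hz]
    · have h3 : ((gfun c (‖z‖ ^ 2) : ℝ) : ℂ) * (‖z‖ : ℂ) = 1 := by
        have := gfun_norm hc0 (t := ‖z‖) (by linarith)
        exact_mod_cast this
      calc z * k z = z * (((gfun c (‖z‖ ^ 2) : ℝ) : ℂ) * (‖z‖ : ℂ)) * k z := by
            rw [h3, mul_one]
        _ = z * gy z * m z := by simp only [hm, hgy]; ring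

/-- a closed two-sided ideal is self-adjoint -/
lemma star_mem_of_closed (J : Set B) (hJ : IsClosed J)
    (hmul : ∀ x ∈ J, ∀ y : B, y * x ∈ J ∧ x * y ∈ J) {x : B} (hx : x ∈ J) : star x ∈ J := by
  set T : B := x * star x with hT
  have hTs : IsSelfAdjoint T := IsSelfAdjoint.mul_star_self x
  have hTJ : T ∈ J := (hmul x hx (star x)).2
  -- `star x * (1 - f_t(T))` tends to `star x`
  have key : ∀ t : ℝ, 0 < t → ∃ z ∈ J, ‖star x - z‖ * ‖star x - z‖ ≤ 1 / (2 * Real.sqrt t) := by
    intro t ht
    have hpos : ∀ s : ℝ, 0 < 1 + t * s ^ 2 := fun s => by positivity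
    have hc1 : Continuous (fun s : ℝ => 1 / (1 + t * s ^ 2)) := by
      refine continuous_const.div (by fun_prop) (fun s => (hpos s).ne')
    have hc2 : Continuous (fun s : ℝ => t * s / (1 + t * s ^ 2)) := by
      refine Continuous.div (by fun_prop) (by fun_prop) (fun s => (hpos s).ne')
    set f : B := cfc (fun s : ℝ => 1 / (1 + t * s ^ 2)) T with hf
    set g : B := cfc (fun s : ℝ => t * s / (1 + t * s ^ 2)) T with hg
    have hfs : star f = f := (cfc_predicate _ _ : IsSelfAdjoint f).star_eq
    have h1 : T * g = 1 - f := by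
      have e1 : (1 : B) = cfc (fun _ : ℝ => (1 : ℝ)) T := (cfc_const_one ℝ T).symm
      have e2 : T * g = cfc (fun s : ℝ => s * (t * s / (1 + t * s ^ 2))) T := by
        rw [cfc_mul (fun s : ℝ => s) _ T continuousOn_id hc2.continuousOn, cfc_id' ℝ T]
      rw [e2, hf]
      rw [e1, ← cfc_sub (fun _ : ℝ => (1 : ℝ)) _ T continuousOn_const hc1.continuousOn]
      congr 1
      funext s
      have := (hpos s).ne'
      field_simp
      ring
    refine ⟨star x * (T * g), (hmul _ (hmul T hTJ g).2 (star x)).1, ?_⟩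
    have h2 : star x - star x * (T * g) = star x * f := by
      rw [h1, mul_sub, mul_one]; abel
    rw [h2, ← CStarRing.norm_star_mul_self, star_mul, star_star, hfs]
    have h3 : f * x * (star x * f) = f * T * f := by rw [hT]; noncomm_ring
    rw [h3]
    have h7 : f * T * f =
        cfc (fun s : ℝ => 1 / (1 + t * s ^ 2) * s * (1 / (1 + t * s ^ 2))) T := by
      rw [cfc_mul (fun s : ℝ => 1 / (1 + t * s ^ 2) * s) _ T
        (hc1.mul continuous_id).continuousOn hc1.continuousOn,
        cfc_mul (fun s : ℝ => 1 / (1 + t * s ^ 2)) (fun s => s) T hc1.continuousOn continuousOn_id,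
        cfc_id' ℝ T]
    rw [h7]
    refine norm_cfc_le (by positivity) fun s _ => ?_
    have hst : 0 < Real.sqrt t := Real.sqrt_pos.2 ht
    have hp := hpos s
    have key : 2 * Real.sqrt t * |s| ≤ 1 + t * s ^ 2 := by
      have h9 : (Real.sqrt t * |s|) ^ 2 = t * s ^ 2 := by
        rw [mul_pow, Real.sq_sqrt ht.le, sq_abs]
      nlinarith [sq_nonneg (Real.sqrt t * |s| - 1)]
    rw [norm_mul, norm_mul, Real.norm_eq_abs, Real.norm_eq_abs, abs_of_pos (by positivity)]
    have h10 : 1 / (1 + t * s ^ 2) ≤ 1 := by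
      rw [div_le_one hp]; nlinarith [sq_nonneg s]
    calc 1 / (1 + t * s ^ 2) * |s| * (1 / (1 + t * s ^ 2))
        ≤ 1 * |s| * (1 / (1 + t * s ^ 2)) := by gcongr
      _ = |s| / (1 + t * s ^ 2) := by ring
      _ ≤ 1 / (2 * Real.sqrt t) := by
        rw [div_le_div_iff₀ hp (by positivity)]
        linarith
  rw [← hJ.closure_eq, Metric.mem_closure_iff]
  intro ε hε
  obtain ⟨z, hz, hz2⟩ := key ((1 / ε ^ 2) ^ 2) (by positivity)
  refine ⟨z, hz, ?_⟩
  rw [dist_eq_norm]
  rw [Real.sqrt_sq (by positivity)] at hz2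
  have h1 : 1 / (2 * (1 / ε ^ 2)) = ε ^ 2 / 2 := by field_simp
  rw [h1] at hz2
  by_contra hcon
  push Not at hcon
  nlinarith [norm_nonneg (star x - z)]

end

end Pool.Agent.H3.BDFP
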