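import Mathlib
import Pool.Agent.H33.BDFP.DStmts
import Pool.Agent.H3.BDFP.POLAR

attribute [local instance] Pool.Agent.H33.BDFP.NV.instNACG Pool.Agent.H33.BDFP.NV.instModule
  Pool.Agent.H33.BDFP.NV.instNormedSpace Pool.Agent.H33.BDFP.NV.instFD
  Pool.Agent.H33.BDFP.NV.instComplete

/-!
Module FINL of the project BDFP: normal elements with finite spectrum lift.
-/

open scoped ENNReal NNReal Topology InnerProductSpace

noncomputable section

namespace Pool.Agent.H3.BDFP

open Pool.Agent.H33.BDFP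

section

variable {B A : Type} [CStarAlgebra B] [CStarAlgebra A]

/-- star homomorphisms are continuous -/
lemma cont_hom (π : B →⋆ₐ[ℂ] A) : Continuous π :=
  AddMonoidHomClass.continuous_of_bound π 1 (fun x => by
    rw [one_mul]; exact NonUnitalStarAlgHom.norm_apply_le π x)

lemma norm_hom_le (π : B →⋆ₐ[ℂ] A) (x : B) : ‖π x‖ ≤ ‖x‖ :=
  NonUnitalStarAlgHom.norm_apply_le π x

/-- a good pair is surjective -/
lemma good_surj {π : B →⋆ₐ[ℂ] A} (h : Good B A π) : Function.Surjective π := by
  intro a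
  set c : ℝ := ‖a‖ + 1 with hc
  have hc0 : 0 < c := by positivity
  have h1 : ‖((c : ℂ)⁻¹) • a‖ < 1 := by
    rw [norm_smul, norm_inv, Complex.norm_real, Real.norm_of_nonneg hc0.le,
      inv_mul_lt_iff₀ hc0]
    linarith
  obtain ⟨X, hX, -⟩ := h.lift _ h1
  refine ⟨(c : ℂ) • X, ?_⟩
  rw [map_smul, hX, smul_smul, mul_inv_cancel₀ (by exact_mod_cast hc0.ne'), one_smul]

/-- self-adjoint elements lift to self-adjoint elements -/
lemma exists_sa_lift {π : B →⋆ₐ[ℂ] A} (h : Function.Surjective π) {x : A}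
    (hx : IsSelfAdjoint x) : ∃ X : B, IsSelfAdjoint X ∧ π X = x := by
  obtain ⟨X, hX⟩ := h x
  refine ⟨(1 / 2 : ℝ) • (X + star X), ?_, ?_⟩
  · exact IsSelfAdjoint.smul (by simp [isSelfAdjoint_iff]) (IsSelfAdjoint.add_star_self _)
  · have h1 : (1 / 2 : ℝ) • (X + star X) = ((1 / 2 : ℝ) : ℂ) • (X + star X) := by
      rw [Complex.coe_smul]
    rw [h1, map_smul, map_add, map_star, hX, hx.star_eq, ← two_smul ℂ x, smul_smul]
    norm_num

/-- homomorphisms and real functional calculus -/
lemma map_cfc_real (π : B →⋆ₐ[ℂ] A) {f : ℝ → ℝ} (hf : Continuous f) {X : B}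
    (hX : IsSelfAdjoint X) : π (cfc f X) = cfc f (π X) :=
  StarAlgHomClass.map_cfc (S := ℂ) π f X hf.continuousOn (cont_hom π) hX (hX.map π)

/-- homomorphisms and complex functional calculus -/
lemma map_cfc_complex (π : B →⋆ₐ[ℂ] A) {f : ℂ → ℂ} (hf : Continuous f) {X : B}
    (hX : IsStarNormal X) : π (cfc f X) = cfc f (π X) :=
  StarAlgHomClass.map_cfc (S := ℂ) π f X hf.continuousOn (cont_hom π) hX (hX.map π)

/-- an orthogonal sum of projections is a projection -/
lemma sum_proj {ι : Type} (s : Finset ι) (Q : ι → B) (hQ : ∀ i ∈ s, IsStarProjection (Q i))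
    (hQQ : ∀ i ∈ s, ∀ j ∈ s, i ≠ j → Q i * Q j = 0) : IsStarProjection (∑ i ∈ s, Q i) := by
  refine ⟨?_, ?_⟩
  · change (∑ i ∈ s, Q i) * (∑ i ∈ s, Q i) = ∑ i ∈ s, Q i
    rw [Finset.sum_mul_sum]
    refine Finset.sum_congr rfl fun i hi => ?_
    rw [Finset.sum_eq_single_of_mem i hi]
    · exact (hQ i hi).isIdempotentElem
    · intro j hj hji
      exact hQQ i hi j hj hji.symm
  · rw [isSelfAdjoint_iff, star_sum]
    exact Finset.sum_congr rfl fun i hi => (hQ i hi).isSelfAdjoint.star_eq

end

theorem finLift : FinLiftStmt := by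
  intro B A _ _ _ π hG b hb hfin
  have hsurj := good_surj hG
  set s := hfin.toFinset with hs
  have hmem : ∀ z, z ∈ s ↔ z ∈ spectrum ℂ b := fun z => hfin.mem_toFinset
  have hne : s.Nonempty := by
    obtain ⟨z, hz⟩ := spectrum.nonempty b
    exact ⟨z, (hmem z).2 hz⟩
  obtain ⟨m, hm⟩ : ∃ m, s.card = m + 1 := ⟨s.card - 1, by have := hne.card_pos; omega⟩
  let e : Fin (m + 1) ≃ s := (finCongr hm.symm).trans s.equivFin.symm
  set c : Fin (m + 1) → ℂ := fun i => (e i : ℂ) with hc
  have hcs : ∀ i, c i ∈ spectrum ℂ b := fun i => (hmem _).1 (e i).2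
  have hcinj : Function.Injective c := fun i j h => e.injective (Subtype.ext h)
  have hcsurj : ∀ z ∈ spectrum ℂ b, ∃ i, c i = z := by
    intro z hz
    refine ⟨e.symm ⟨z, (hmem z).2 hz⟩, ?_⟩
    change ((e (e.symm ⟨z, _⟩) : s) : ℂ) = z
    rw [e.apply_symm_apply]
  -- the index function
  classical
  set idx : ℂ → ℝ := fun z => if h : z ∈ s then ((e.symm ⟨z, h⟩ : Fin (m + 1)) : ℕ) else 0
    with hidx
  have hidxc : ∀ i, idx (c i) = (i : ℕ) := by
    intro i
    have h1 : c i ∈ s := (e i).2
    simp only [hidx]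
    rw [dif_pos h1]
    congr 2
    exact e.symm_apply_apply i
  have hdisc : ∀ f : ℂ → ℂ, ContinuousOn f (spectrum ℂ b) := fun f => hfin.continuousOn f
  set q : Fin (m + 1) → A := fun i => cfc (fun z => if z = c i then (1 : ℂ) else 0) b with hq
  set x : A := cfc (fun z => ((idx z : ℝ) : ℂ)) b with hx
  have hxs : IsSelfAdjoint x := by
    rw [isSelfAdjoint_iff, hx, ← cfc_star]
    congr 1
    funext z
    exact Complex.conj_ofReal _
  obtain ⟨X, hXs, hX⟩ := exists_sa_lift hsurj hxs
  -- real functions of `x`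
  have hfx : ∀ f : ℝ → ℝ, Continuous f →
      cfc f x = cfc (fun z => ((f (idx z) : ℝ) : ℂ)) b := by
    intro f hf
    rw [cfc_real_eq_complex f hxs, hx, ← cfc_comp' (fun z : ℂ => ((f z.re : ℝ) : ℂ))
      (fun z => ((idx z : ℝ) : ℂ)) b
      (Complex.continuous_ofReal.comp (hf.comp Complex.continuous_re)).continuousOn
      (hdisc _) hb]
    rfl
  set f : Fin (m + 1) → ℝ → ℝ := fun i t => max (1 / 3 - |t - (i : ℕ)|) 0 with hf
  set g : Fin (m + 1) → ℝ → ℝ := fun i t => max 0 (min 1 (2 - 3 * |t - (i : ℕ)|)) with hg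
  have hfc : ∀ i, Continuous (f i) := fun i => by simp only [hf]; fun_prop
  have hgc : ∀ i, Continuous (g i) := fun i => by simp only [hg]; fun_prop
  have hgf : ∀ i t, (g i t - 1) * f i t = 0 := by
    intro i t
    simp only [hf, hg]
    rcases le_total (1 / 3) |t - (i : ℕ)| with h | h
    · rw [max_eq_right (by linarith : 1 / 3 - |t - (i : ℕ)| ≤ 0), mul_zero]
    · rw [min_eq_left (by linarith : (1 : ℝ) ≤ 2 - 3 * |t - (i : ℕ)|),
        max_eq_right zero_le_one, sub_self, zero_mul]
  have hff : ∀ i j, i ≠ j → ∀ t, f i t * f j t = 0 := by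
    intro i j hij t
    simp only [hf]
    have hd : (1 : ℝ) ≤ |((i : ℕ) : ℝ) - ((j : ℕ) : ℝ)| := by
      have h1 : ((i : ℕ) : ℤ) - ((j : ℕ) : ℤ) ≠ 0 := by
        intro h
        apply hij
        apply Fin.ext
        omega
      have h2 : (1 : ℤ) ≤ |((i : ℕ) : ℤ) - ((j : ℕ) : ℤ)| := Int.one_le_abs h1
      exact_mod_cast h2
    rcases le_total (1 / 3) |t - (i : ℕ)| with h | h
    · rw [max_eq_right (by linarith : 1 / 3 - |t - (i : ℕ)| ≤ 0), zero_mul]
    · have h3 : |((i : ℕ) : ℝ) - ((j : ℕ) : ℝ)| ≤ |t - (i : ℕ)| + |t - (j : ℕ)| := by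
        have := abs_sub_le ((i : ℕ) : ℝ) t ((j : ℕ) : ℝ)
        rw [abs_sub_comm ((i : ℕ) : ℝ) t] at this
        exact this
      rw [max_eq_right (by linarith : 1 / 3 - |t - (j : ℕ)| ≤ 0), mul_zero]
  -- values at the integers
  have hfi : ∀ i j : Fin (m + 1), f i ((j : ℕ) : ℝ) = if j = i then 1 / 3 else 0 := by
    intro i j
    simp only [hf]
    split_ifs with h
    · rw [h, sub_self, abs_zero, sub_zero]
      norm_num
    · have h1 : ((j : ℕ) : ℤ) - ((i : ℕ) : ℤ) ≠ 0 := by
        intro h'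
        apply h
        apply Fin.ext
        omega
      have h2 : (1 : ℤ) ≤ |((j : ℕ) : ℤ) - ((i : ℕ) : ℤ)| := Int.one_le_abs h1
      have h3 : (1 : ℝ) ≤ |((j : ℕ) : ℝ) - ((i : ℕ) : ℝ)| := by exact_mod_cast h2
      exact max_eq_right (by linarith)
  have hgi : ∀ i j : Fin (m + 1), g i ((j : ℕ) : ℝ) = if j = i then 1 else 0 := by
    intro i j
    simp only [hg]
    split_ifs with h
    · rw [h, sub_self, abs_zero, mul_zero, sub_zero]
      norm_num
    · have h1 : ((j : ℕ) : ℤ) - ((i : ℕ) : ℤ) ≠ 0 := by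
        intro h'
        apply h
        apply Fin.ext
        omega
      have h2 : (1 : ℤ) ≤ |((j : ℕ) : ℤ) - ((i : ℕ) : ℤ)| := Int.one_le_abs h1
      have h3 : (1 : ℝ) ≤ |((j : ℕ) : ℝ) - ((i : ℕ) : ℝ)| := by exact_mod_cast h2
      exact max_eq_left ((min_le_right _ _).trans (by linarith))
  choose Q hQp hQf hQZ using fun i => hG.rickart (cfc (f i) X)
  have hQs : ∀ i, star (Q i) = Q i := fun i => (hQp i).isSelfAdjoint.star_eq
  have hfs : ∀ i, star (cfc (f i) X) = cfc (f i) X := fun i =>
    (cfc_predicate (f i) X : IsSelfAdjoint _).star_eq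
  have hgs : ∀ i, star (cfc (g i) X) = cfc (g i) X := fun i =>
    (cfc_predicate (g i) X : IsSelfAdjoint _).star_eq
  have hgQ : ∀ i, cfc (g i) X * Q i = Q i := by
    intro i
    have h1 : (cfc (g i) X - 1) * cfc (f i) X = 0 := by
      have e2 : cfc (g i) X - 1 = cfc (fun t : ℝ => g i t - 1) X := by
        rw [cfc_sub (g i) (fun _ => 1) X (hgc i).continuousOn continuousOn_const,
          cfc_const_one ℝ X]
      rw [e2, ← cfc_mul (fun t : ℝ => g i t - 1) (f i) X
        ((hgc i).sub continuous_const).continuousOn (hfc i).continuousOn]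
      have e3 : (fun t : ℝ => (g i t - 1) * f i t) = fun _ => 0 := funext fun t => hgf i t
      rw [e3, cfc_const_zero ℝ X]
    have := hQZ i _ h1
    rw [sub_mul, one_mul, sub_eq_zero] at this
    exact this
  have hQQ : ∀ i j, i ≠ j → Q i * Q j = 0 := by
    intro i j hij
    have h1 : cfc (f j) X * cfc (f i) X = 0 := by
      rw [← cfc_mul (f j) (f i) X (hfc j).continuousOn (hfc i).continuousOn]
      have e3 : (fun t : ℝ => f j t * f i t) = fun _ => 0 := funext fun t => hff j i hij.symm t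
      rw [e3, cfc_const_zero ℝ X]
    have h2 : cfc (f j) X * Q i = 0 := hQZ i _ h1
    have h3 : Q i * cfc (f j) X = 0 := by
      have := congrArg star h2
      rwa [star_mul, hQs, hfs, star_zero] at this
    exact hQZ j _ h3
  have hcongr : ∀ F : ℝ → ℝ, ∀ a : ℝ, Continuous F → ∀ i,
      (∀ j : Fin (m + 1), F ((j : ℕ) : ℝ) = if j = i then a else 0) →
      cfc F x = (a : ℂ) • q i := by
    intro F a hF i h
    rw [hfx F hF, hq]
    change _ = (a : ℂ) • cfc (fun z => if z = c i then (1 : ℂ) else 0) b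
    rw [← cfc_smul (a : ℂ) (fun z => if z = c i then (1 : ℂ) else 0) b (hdisc _)]
    apply cfc_congr
    intro z hz
    obtain ⟨j, rfl⟩ := hcsurj z hz
    simp only [hidxc, h]
    by_cases hij : j = i
    · subst hij
      simp
    · have : c j ≠ c i := fun h => hij (hcinj h)
      simp [this, hij]
  have hqQ : ∀ i, π (Q i) = q i := by
    intro i
    have h1 : π (Q i) * q i = q i := by
      have h2 : π (cfc (f i) X) = ((1 / 3 : ℝ) : ℂ) • q i := by
        rw [map_cfc_real π (hfc i) hXs, hX]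
        exact hcongr (f i) (1 / 3) (hfc i) i (hfi i)
      have h3 : π (Q i) * (((1 / 3 : ℝ) : ℂ) • q i) = ((1 / 3 : ℝ) : ℂ) • q i := by
        rw [← h2, ← map_mul, hQf]
      rw [mul_smul_comm] at h3
      have h4 : ((3 : ℝ) : ℂ) • (((1 / 3 : ℝ) : ℂ) • (π (Q i) * q i)) =
          ((3 : ℝ) : ℂ) • (((1 / 3 : ℝ) : ℂ) • q i) := by rw [h3]
      rw [smul_smul, smul_smul] at h4
      have h5 : ((3 : ℝ) : ℂ) * ((1 / 3 : ℝ) : ℂ) = 1 := by push_cast; norm_num
      rwa [h5, one_smul, one_smul] at h4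
    have h2 : q i * π (Q i) = π (Q i) := by
      have h2 : π (cfc (g i) X) = q i := by
        rw [map_cfc_real π (hgc i) hXs, hX]
        have := hcongr (g i) 1 (hgc i) i (hgi i)
        rwa [Complex.ofReal_one, one_smul] at this
      rw [← h2, ← map_mul, hgQ]
    have h3 : π (Q i) * q i = π (Q i) := by
      have h4 := congrArg star h2
      rw [star_mul, ← map_star, hQs] at h4
      have h5 : star (q i) = q i := by
        rw [hq]
        change star (cfc (fun z => if z = c i then (1 : ℂ) else 0) b) = _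
        rw [← cfc_star]
        congr 1
        funext z
        split_ifs <;> simp
      rwa [h5] at h4
    rw [← h3, h1]
  have hsumq : ∑ i, q i = 1 := by
    rw [hq]
    rw [← cfc_sum (fun i z => if z = c i then (1 : ℂ) else 0) b Finset.univ
      (fun i _ => hdisc _), ← cfc_const_one ℂ b]
    apply cfc_congr
    intro z hz
    obtain ⟨j, rfl⟩ := hcsurj z hz
    simp only [Finset.sum_apply]
    rw [Finset.sum_eq_single j]
    · simp
    · intro i _ hij
      have : c j ≠ c i := fun h => hij (hcinj h).symm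
      simp [this]
    · simp
  have hsumb : ∑ i, c i • q i = b := by
    have h1 : ∀ i, c i • q i = cfc (fun z => c i • if z = c i then (1 : ℂ) else 0) b := by
      intro i
      rw [hq]
      exact (cfc_smul (c i) (fun z => if z = c i then (1 : ℂ) else 0) b (hdisc _)).symm
    simp_rw [h1]
    rw [← cfc_sum (fun i z => c i • if z = c i then (1 : ℂ) else 0) b Finset.univ
      (fun i _ => hdisc _)]
    conv_rhs => rw [← cfc_id' ℂ b]
    apply cfc_congr
    intro z hz
    obtain ⟨j, rfl⟩ := hcsurj z hz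
    simp only [Finset.sum_apply]
    rw [Finset.sum_eq_single j]
    · simp
    · intro i _ hij
      have : c j ≠ c i := fun h => hij (hcinj h).symm
      simp [this]
    · simp
  -- correction of the first projection
  set R : B := ∑ i ∈ Finset.univ.erase (0 : Fin (m + 1)), Q i with hR
  have hRp : IsStarProjection R := sum_proj _ Q (fun i _ => hQp i) (fun i _ j _ h => hQQ i j h)
  have hRQ : ∀ j, j ≠ 0 → R * Q j = Q j := by
    intro j hj
    rw [hR, Finset.sum_mul, Finset.sum_eq_single_of_mem j (by simp [hj])]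
    · exact (hQp j).isIdempotentElem
    · intro i _ hij
      exact hQQ i j hij
  have hQR : ∀ j, j ≠ 0 → Q j * R = Q j := by
    intro j hj
    rw [hR, Finset.mul_sum, Finset.sum_eq_single_of_mem j (by simp [hj])]
    · exact (hQp j).isIdempotentElem
    · intro i _ hij
      exact hQQ j i hij.symm
  have hπR : π (1 - R) = q 0 := by
    rw [map_sub, map_one, hR, map_sum]
    simp_rw [hqQ]
    rw [← hsumq, ← Finset.add_sum_erase Finset.univ q (Finset.mem_univ 0)]
    abel
  refine ⟨m + 1, fun i => if i = 0 then 1 - R else Q i, c, ?_, ?_, ?_, hcs, ?_⟩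
  · intro i
    by_cases hi : i = 0
    · simp only [hi, if_true]
      exact hRp.one_sub
    · simp only [hi, if_false]
      exact hQp i
  · intro i j hij
    by_cases hi : i = 0
    · subst hi
      have hj : j ≠ 0 := hij.symm
      simp only [if_true, hj, if_false]
      rw [sub_mul, one_mul, hRQ j hj, sub_self]
    · by_cases hj : j = 0
      · subst hj
        simp only [if_true, hi, if_false]
        rw [mul_sub, mul_one, hQR i hi, sub_self]
      · simp only [hi, hj, if_false]
        exact hQQ i j hij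
  · rw [← Finset.add_sum_erase Finset.univ _ (Finset.mem_univ 0)]
    simp only [if_true]
    have : ∑ i ∈ Finset.univ.erase (0 : Fin (m + 1)), (if i = 0 then 1 - R else Q i) = R := by
      rw [hR]
      refine Finset.sum_congr rfl fun i hi => ?_
      rw [if_neg (Finset.ne_of_mem_erase hi)]
    rw [this]
    abel
  · rw [map_sum, ← hsumb]
    refine Finset.sum_congr rfl fun i _ => ?_
    rw [map_smul]
    congr 1
    by_cases hi : i = 0
    · subst hi
      simp only [if_true]
      exact hπR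
    · simp only [hi, if_false]
      exact hqQ i

end Pool.Agent.H3.BDFP
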