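import Mathlib
import Pool.Agent.H33.BDFP.DStmts
import Pool.Agent.H3.BDFP.FINL

attribute [local instance] Pool.Agent.H33.BDFP.NV.instNACG Pool.Agent.H33.BDFP.NV.instModule
  Pool.Agent.H33.BDFP.NV.instNormedSpace Pool.Agent.H33.BDFP.NV.instFD
  Pool.Agent.H33.BDFP.NV.instComplete

/-!
Module FR of the project BDFP: the theorem of Friis and Rordam.
-/

open scoped ENNReal NNReal Topology InnerProductSpace

noncomputable section

namespace Pool.Agent.H3.BDFP

open Pool.Agent.H33.BDFP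

section

variable {A : Type} [CStarAlgebra A]

/-- the spectrum of `b` is close to the spectrum of a normal element close to `b` -/
lemma exists_near_spectrum [Nontrivial A] {a b : A} (ha : IsStarNormal a) {c : ℂ}
    (hc : c ∈ spectrum ℂ b) : ∃ c' ∈ spectrum ℂ a, ‖c - c'‖ ≤ ‖b - a‖ := by
  by_contra hcon
  push Not at hcon
  have hcomp : IsCompact (spectrum ℂ a) := spectrum.isCompact a
  obtain ⟨c₀, hc₀, hmin⟩ := hcomp.exists_isMinOn (spectrum.nonempty a)
    (f := fun z => ‖c - z‖) (by fun_prop)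
  set d : ℝ := ‖c - c₀‖ with hd
  have hdlt : ‖b - a‖ < d := hcon c₀ hc₀
  have hd0 : 0 < d := lt_of_le_of_lt (norm_nonneg _) hdlt
  have hmin' : ∀ z ∈ spectrum ℂ a, d ≤ ‖c - z‖ := fun z hz => hmin hz
  have hne : ∀ z ∈ spectrum ℂ a, c - z ≠ 0 := by
    intro z hz h
    have := hmin' z hz
    rw [h, norm_zero] at this
    linarith
  have hgc : ContinuousOn (fun z : ℂ => (c - z)⁻¹) (spectrum ℂ a) :=
    ContinuousOn.inv₀ (by fun_prop) hne
  set g : A := cfc (fun z : ℂ => (c - z)⁻¹) a with hg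
  have hgn : ‖g‖ ≤ 1 / d := by
    refine norm_cfc_le (by positivity) fun z hz => ?_
    rw [norm_inv, one_div]
    exact inv_anti₀ hd0 (hmin' z hz)
  have hca : algebraMap ℂ A c - a = cfc (fun z : ℂ => c - z) a := by
    rw [cfc_sub (fun _ : ℂ => c) (fun z => z) a continuousOn_const continuousOn_id,
      cfc_const c a, cfc_id' ℂ a]
  have hmul : ∀ z ∈ spectrum ℂ a, (c - z) * (c - z)⁻¹ = 1 := fun z hz =>
    mul_inv_cancel₀ (hne z hz)
  have h1 : (algebraMap ℂ A c - a) * g = 1 := by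
    rw [hca, hg, ← cfc_mul (fun z : ℂ => c - z) (fun z => (c - z)⁻¹) a (by fun_prop) hgc,
      ← cfc_const_one ℂ a]
    exact cfc_congr fun z hz => hmul z hz
  have h2 : g * (algebraMap ℂ A c - a) = 1 := by
    rw [hca, hg, ← cfc_mul (fun z : ℂ => (c - z)⁻¹) (fun z => c - z) a hgc (by fun_prop),
      ← cfc_const_one ℂ a]
    exact cfc_congr fun z hz => (mul_comm _ _).trans (hmul z hz)
  have hu : IsUnit (algebraMap ℂ A c - a) := ⟨⟨_, g, h1, h2⟩, rfl⟩
  have h3 : ‖g * (b - a)‖ < 1 := by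
    calc ‖g * (b - a)‖ ≤ ‖g‖ * ‖b - a‖ := norm_mul_le _ _
      _ ≤ 1 / d * ‖b - a‖ := by gcongr
      _ = ‖b - a‖ / d := by ring
      _ < 1 := (div_lt_one hd0).2 hdlt
  have h4 : IsUnit (1 - g * (b - a)) := isUnit_one_sub_of_norm_lt_one h3
  have h5 : algebraMap ℂ A c - b = (algebraMap ℂ A c - a) * (1 - g * (b - a)) := by
    calc algebraMap ℂ A c - b = (algebraMap ℂ A c - a) - 1 * (b - a) := by rw [one_mul]; abel
      _ = (algebraMap ℂ A c - a) - ((algebraMap ℂ A c - a) * g) * (b - a) := by rw [h1]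
      _ = _ := by noncomm_ring
  have h6 : IsUnit (algebraMap ℂ A c - b) := by
    rw [h5]
    exact hu.mul h4
  exact hc h6

/-- norm of a combination of orthogonal projections -/
lemma norm_sum_proj_le {m : ℕ} (Q : Fin m → A) (hQ : ∀ i, IsStarProjection (Q i))
    (hQQ : ∀ i j, i ≠ j → Q i * Q j = 0) (hsum : ∑ i, Q i = 1) (d : Fin m → ℂ) {δ : ℝ}
    (hδ : 0 ≤ δ) (hd : ∀ i, ‖d i‖ ≤ δ) : ‖∑ i, d i • Q i‖ ≤ δ := by
  have hmul : ∀ x y : Fin m → ℂ, (∑ i, x i • Q i) * (∑ i, y i • Q i) =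
      ∑ i, (x i * y i) • Q i := by
    intro x y
    rw [Finset.sum_mul_sum]
    refine Finset.sum_congr rfl fun i _ => ?_
    rw [Finset.sum_eq_single i]
    · rw [smul_mul_smul_comm]
      congr 1
      exact (hQ i).isIdempotentElem
    · intro j _ hji
      rw [smul_mul_smul_comm, hQQ i j hji.symm, smul_zero]
    · intro h
      exact absurd (Finset.mem_univ i) h
  set T : A := ∑ i, d i • Q i with hT
  have hstar : star T = ∑ i, star (d i) • Q i := by
    rw [hT, star_sum]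
    refine Finset.sum_congr rfl fun i _ => ?_
    rw [star_smul, (hQ i).isSelfAdjoint.star_eq]
  have hTn : IsStarNormal T := by
    refine ⟨?_⟩
    change star T * T = T * star T
    rw [hstar, hT, hmul, hmul]
    refine Finset.sum_congr rfl fun i _ => ?_
    rw [mul_comm]
  have hsp : ∀ z ∈ spectrum ℂ T, ∃ i, d i = z := by
    intro z hz
    by_contra hcon
    push Not at hcon
    apply hz
    have h1 : algebraMap ℂ A z - T = ∑ i, (z - d i) • Q i := by
      rw [hT, Algebra.algebraMap_eq_smul_one, ← hsum, Finset.smul_sum, ← Finset.sum_sub_distrib]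
      refine Finset.sum_congr rfl fun i _ => ?_
      rw [sub_smul]
    have hne : ∀ i, z - d i ≠ 0 := fun i => sub_ne_zero.2 (hcon i).symm
    change IsUnit (algebraMap ℂ A z - T)
    rw [h1]
    refine ⟨⟨∑ i, (z - d i) • Q i, ∑ i, (z - d i)⁻¹ • Q i, ?_, ?_⟩, rfl⟩
    · rw [hmul, ← hsum]
      refine Finset.sum_congr rfl fun i _ => ?_
      rw [mul_inv_cancel₀ (hne i), one_smul]
    · rw [hmul, ← hsum]
      refine Finset.sum_congr rfl fun i _ => ?_
      rw [inv_mul_cancel₀ (hne i), one_smul]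
  rw [← cfc_id' ℂ T]
  refine norm_cfc_le hδ fun z hz => ?_
  obtain ⟨i, rfl⟩ := hsp z hz
  exact hd i

/-- the rounding map -/
def rnd (z : ℂ) : ℂ := ⟨(round z.re : ℝ), (round z.im : ℝ)⟩

lemma round_eventually {x : ℝ} (hx : ∀ l : ℤ, x ≠ l + 1 / 2) :
    ∀ᶠ y in 𝓝 x, round y = round x := by
  have h1 : (round x : ℝ) - 1 / 2 < x := by
    have h := (abs_le.1 (abs_sub_round x)).1
    rcases lt_or_eq_of_le (show (round x : ℝ) - 1 / 2 ≤ x by linarith) with h' | h'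
    · exact h'
    · exfalso
      apply hx (round x - 1)
      push_cast
      linarith
  have h2 : x < (round x : ℝ) + 1 / 2 := by
    have h := (abs_le.1 (abs_sub_round x)).2
    rcases lt_or_eq_of_le (show x ≤ (round x : ℝ) + 1 / 2 by linarith) with h' | h'
    · exact h'
    · exact absurd h' (hx (round x))
  filter_upwards [Ioo_mem_nhds h1 h2] with y hy
  rw [round_eq, Int.floor_eq_iff]
  constructor <;> linarith [hy.1, hy.2]

lemma continuousAt_rnd {z : ℂ} (h1 : ∀ l : ℤ, z.re ≠ l + 1 / 2)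
    (h2 : ∀ l : ℤ, z.im ≠ l + 1 / 2) : ContinuousAt rnd z := by
  have e1 : ∀ᶠ w in 𝓝 z, round w.re = round z.re :=
    Complex.continuous_re.continuousAt.eventually (round_eventually h1)
  have e2 : ∀ᶠ w in 𝓝 z, round w.im = round z.im :=
    Complex.continuous_im.continuousAt.eventually (round_eventually h2)
  have e3 : ∀ᶠ w in 𝓝 z, rnd w = rnd z := by
    filter_upwards [e1, e2] with w h h'
    unfold rnd
    rw [h, h']
  exact (continuousAt_const (y := rnd z)).congr (e3.mono fun w hw => hw.symm)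

lemma not_half_of_int {x : ℝ} {k : ℤ} (h : x = k) : ∀ l : ℤ, x ≠ l + 1 / 2 := by
  intro l hl
  rw [h] at hl
  have h1 : (2 : ℝ) * k = 2 * l + 1 := by linarith
  have h2 : (2 : ℤ) * k = 2 * l + 1 := by exact_mod_cast h1
  omega

lemma continuousOn_rnd : ContinuousOn rnd gridM := by
  intro z hz
  apply ContinuousAt.continuousWithinAt
  rcases hz with ⟨k, hk, h⟩ | ⟨k, hk, h⟩
  · exact continuousAt_rnd (not_half_of_int hk) h
  · exact continuousAt_rnd h (not_half_of_int hk)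

lemma norm_rnd_sub_le (z : ℂ) : ‖rnd z - z‖ ≤ 1 := by
  have h1 : |(rnd z - z).re| ≤ 1 / 2 := by
    change |(round z.re : ℝ) - z.re| ≤ 1 / 2
    rw [abs_sub_comm]
    exact abs_sub_round z.re
  have h2 : |(rnd z - z).im| ≤ 1 / 2 := by
    change |(round z.im : ℝ) - z.im| ≤ 1 / 2
    rw [abs_sub_comm]
    exact abs_sub_round z.im
  have := Complex.norm_le_abs_re_add_abs_im (rnd z - z)
  linarith

lemma finite_rnd_image {S : Set ℂ} {C : ℝ} (hS : ∀ z ∈ S, ‖z‖ ≤ C) : (rnd '' S).Finite := by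
  set N : ℤ := ⌈C + 1⌉ with hN
  have hfin : (Set.Icc (-N) N ×ˢ Set.Icc (-N) N).Finite :=
    (Set.finite_Icc _ _).prod (Set.finite_Icc _ _)
  refine (hfin.image (fun q : ℤ × ℤ => (⟨(q.1 : ℝ), (q.2 : ℝ)⟩ : ℂ))).subset ?_
  rintro _ ⟨z, hz, rfl⟩
  have hb : ∀ x : ℝ, |x| ≤ C → round x ∈ Set.Icc (-N) N := by
    intro x hx
    have h1 := abs_le.1 (abs_sub_round x)
    have h2 := abs_le.1 hx
    have h3 : C + 1 ≤ N := Int.le_ceil _
    constructor
    · have : -(N : ℝ) ≤ (round x : ℝ) := by linarith [h1.2, h2.1]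
      exact_mod_cast this
    · have : (round x : ℝ) ≤ N := by linarith [h1.1, h2.2]
      exact_mod_cast this
  exact ⟨(round z.re, round z.im),
    ⟨hb _ ((Complex.abs_re_le_norm z).trans (hS z hz)),
      hb _ ((Complex.abs_im_le_norm z).trans (hS z hz))⟩, rfl⟩

end

theorem fr (hpunct : PunctStmt) (hretr : RetrStmt) (hcut : CutAllStmt) (hfinl : FinLiftStmt) :
    FRStmt := by
  intro B A _ _ _ π hG a ha hL ε hε
  set t : ℝ := 8 / ε with ht
  have ht0 : 0 < t := by positivity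
  have htc : (t : ℂ) ≠ 0 := by exact_mod_cast ht0.ne'
  set a' : A := (t : ℂ) • a with ha'
  have ha'n : IsStarNormal a' := by
    refine ⟨?_⟩
    change star a' * a' = a' * star a'
    rw [ha', star_smul, smul_mul_smul_comm, smul_mul_smul_comm, ha.star_comm_self.eq, mul_comm]
  have hsp' : ∀ z, z ∈ spectrum ℂ a' ↔ (t : ℂ)⁻¹ * z ∈ spectrum ℂ a := by
    intro z
    have h2 : algebraMap ℂ A z - a' = Units.mk0 (t : ℂ) htc •
        (algebraMap ℂ A ((t : ℂ)⁻¹ * z) - a) := by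
      change _ = (t : ℂ) • (algebraMap ℂ A ((t : ℂ)⁻¹ * z) - a)
      rw [smul_sub, ha', Algebra.algebraMap_eq_smul_one, Algebra.algebraMap_eq_smul_one,
        smul_smul, mul_inv_cancel_left₀ htc]
    change ¬ IsUnit (algebraMap ℂ A z - a') ↔ ¬ IsUnit (algebraMap ℂ A ((t : ℂ)⁻¹ * z) - a)
    rw [h2, isUnit_smul_iff]
  set R : ℕ := ⌈‖a'‖⌉₊ + 1 with hR
  have hRle : ‖a'‖ + 1 ≤ R := by
    rw [hR]
    push_cast
    linarith [Nat.le_ceil ‖a'‖]
  -- step 1: PUNCT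
  obtain ⟨b₁, hb₁, hb₁a, hb₁L⟩ := hpunct B A π hG a' ha'n (ctr (R + 1)) (by
    intro μ _ hμ
    have h1 : (t : ℂ)⁻¹ * μ ∉ spectrum ℂ a := fun h => hμ ((hsp' μ).2 h)
    obtain ⟨W, hW⟩ := hL _ h1
    refine ⟨Units.mk0 (t : ℂ) htc • W, ?_⟩
    have h2 : ((Units.mk0 (t : ℂ) htc • W : Bˣ) : B) = (t : ℂ) • (W : B) := rfl
    rw [h2, map_smul, hW, smul_sub, ha', Algebra.algebraMap_eq_smul_one,
      Algebra.algebraMap_eq_smul_one, smul_smul, mul_inv_cancel_left₀ htc]) 1 one_pos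
  have hb₁n : ‖b₁‖ ≤ R := by
    calc ‖b₁‖ = ‖a' + (b₁ - a')‖ := by congr 1; abel
      _ ≤ ‖a'‖ + ‖b₁ - a'‖ := norm_add_le _ _
      _ ≤ R := by linarith
  have hb₁S : spectrum ℂ b₁ ⊆ Sq R := by
    intro z hz
    have h1 : ‖z‖ ≤ R := (spectrum.norm_le_norm_of_mem hz).trans hb₁n
    exact ⟨(Complex.abs_re_le_norm z).trans h1, (Complex.abs_im_le_norm z).trans h1⟩
  -- step 2: RETR
  obtain ⟨b₂, hb₂, hb₂b₁, hb₂S, hb₂L⟩ := hretr B A π hG R b₁ hb₁ hb₁S hb₁L
  -- step 3: CUTALL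
  obtain ⟨b₃, hb₃, hb₃b₂, hb₃S⟩ := hcut B A π hG R b₂ hb₂ hb₂S hb₂L
  -- step 4: rounding
  have hrc : ContinuousOn rnd (spectrum ℂ b₃) := continuousOn_rnd.mono hb₃S
  set b₄ : A := cfc rnd b₃ with hb₄
  have hb₄n : IsStarNormal b₄ := cfc_predicate _ _
  have hb₄b₃ : ‖b₄ - b₃‖ ≤ 1 := by
    have h1 : b₄ - b₃ = cfc (fun z => rnd z - z) b₃ := by
      rw [cfc_sub rnd (fun z => z) b₃ hrc continuousOn_id, cfc_id' ℂ b₃]
    rw [h1]
    exact norm_cfc_le zero_le_one fun z _ => norm_rnd_sub_le z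
  have hb₄fin : (spectrum ℂ b₄).Finite := by
    rw [hb₄, cfc_map_spectrum (R := ℂ) rnd b₃ hb₃ hrc]
    exact finite_rnd_image (C := ‖b₃‖) fun z hz => spectrum.norm_le_norm_of_mem hz
  have hb₄a : ‖b₄ - a'‖ ≤ 4 := by
    have h1 : b₄ - a' = (b₄ - b₃) + (b₃ - b₂) + (b₂ - b₁) + (b₁ - a') := by abel
    rw [h1]
    have h2 := norm_add₃_le (a := b₄ - b₃) (b := b₃ - b₂) (c := b₂ - b₁)
    have h3 := norm_add_le ((b₄ - b₃) + (b₃ - b₂) + (b₂ - b₁)) (b₁ - a')
    linarith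
  obtain ⟨m, Q, c, hQ, hQQ, hQsum, hcs, hπ⟩ := hfinl B A π hG b₄ hb₄n hb₄fin
  choose c' hc' hcc' using fun i => exists_near_spectrum ha'n (hcs i)
  have hQ' : ∀ i, IsStarProjection (π (Q i)) := fun i => (hQ i).map π
  have hQQ' : ∀ i j, i ≠ j → π (Q i) * π (Q j) = 0 := by
    intro i j hij
    rw [← map_mul, hQQ i j hij, map_zero]
  have hsum' : ∑ i, π (Q i) = 1 := by rw [← map_sum, hQsum, map_one]
  have h5 : ‖π (∑ i, c' i • Q i) - b₄‖ ≤ 4 := by
    rw [← hπ, ← map_sub, ← Finset.sum_sub_distrib]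
    simp_rw [← sub_smul]
    rw [map_sum]
    simp_rw [map_smul]
    refine norm_sum_proj_le (fun i => π (Q i)) hQ' hQQ' hsum' _ (by norm_num) fun i => ?_
    rw [norm_sub_rev]
    exact (hcc' i).trans hb₄a
  have h6 : ‖π (∑ i, c' i • Q i) - a'‖ ≤ 8 := by
    have : π (∑ i, c' i • Q i) - a' = (π (∑ i, c' i • Q i) - b₄) + (b₄ - a') := by abel
    rw [this]
    have := norm_add_le (π (∑ i, c' i • Q i) - b₄) (b₄ - a')
    linarith
  refine ⟨m, Q, fun i => (t : ℂ)⁻¹ * c' i, hQ, hQQ, hQsum, fun i => (hsp' _).1 (hc' i), ?_⟩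
  have h7 : π (∑ i, ((t : ℂ)⁻¹ * c' i) • Q i) - a = (t : ℂ)⁻¹ • (π (∑ i, c' i • Q i) - a') := by
    rw [smul_sub, ha', smul_smul, inv_mul_cancel₀ htc, one_smul, ← map_smul, Finset.smul_sum]
    simp_rw [smul_smul]
  rw [h7, norm_smul, norm_inv, Complex.norm_real, Real.norm_of_nonneg ht0.le]
  calc t⁻¹ * ‖π (∑ i, c' i • Q i) - a'‖ ≤ t⁻¹ * 8 := by gcongr
    _ = ε := by rw [ht]; field_simp

end Pool.Agent.H3.BDFP
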