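import Mathlib
import Pool.Agent.H33.BDFP.DStmts

attribute [local instance] Pool.Agent.H33.BDFP.NV.instNACG Pool.Agent.H33.BDFP.NV.instModule
  Pool.Agent.H33.BDFP.NV.instNormedSpace Pool.Agent.H33.BDFP.NV.instFD
  Pool.Agent.H33.BDFP.NV.instComplete

/-!
Module QUO of the project BDFP: the quotient of a C*-algebra by a closed self-adjoint ideal.
-/

open scoped ENNReal NNReal Topology

noncomputable section

namespace Pool.Agent.H3.BDFP

open Pool.Agent.H33.BDFP

section QuoConstr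

variable {B : Type} [CStarAlgebra B] (I : Ideal B) [I.IsTwoSided]

lemma quo_norm_mk_le (r : B) : ‖Ideal.Quotient.mk I r‖ ≤ ‖r‖ :=
  Submodule.Quotient.norm_mk_le I r

lemma quo_norm_mk_lt (x : B ⧸ I) {ε : ℝ} (hε : 0 < ε) :
    ∃ r : B, Ideal.Quotient.mk I r = x ∧ ‖r‖ < ‖x‖ + ε :=
  Submodule.Quotient.norm_mk_lt x hε

lemma quo_mul_le (x y : B ⧸ I) : ‖x * y‖ ≤ ‖x‖ * ‖y‖ := by
  refine le_of_forall_pos_le_add fun ε hε => ?_
  have := ((Metric.nhds_basis_ball.prod_nhds Metric.nhds_basis_ball).tendsto_iff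
    Metric.nhds_basis_ball).mp (continuous_mul.tendsto (‖x‖, ‖y‖)) ε hε
  simp only [Set.mem_prod, Metric.mem_ball, and_imp, Prod.forall, Prod.exists] at this
  rcases this with ⟨ε₁, ε₂, ⟨h₁, h₂⟩, h⟩
  obtain ⟨a, rfl, ha⟩ := quo_norm_mk_lt I x h₁
  obtain ⟨b, rfl, hb⟩ := quo_norm_mk_lt I y h₂
  simp only [dist, abs_sub_lt_iff] at h
  specialize h ‖a‖ ‖b‖ ⟨by linarith, by linarith [quo_norm_mk_le I a]⟩
    ⟨by linarith, by linarith [quo_norm_mk_le I b]⟩
  calc
    _ ≤ ‖a‖ * ‖b‖ := (quo_norm_mk_le I (a * b)).trans (norm_mul_le a b)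
    _ ≤ _ := (sub_lt_iff_lt_add'.mp h.1).le

/-- the key estimate for the C*-identity -/
lemma quo_cstar_aux (x h j : B) (hj : j ∈ I) (hjs : IsSelfAdjoint j)
    (hh : h = star x * x + j) (t : ℝ) (ht : 0 < t) :
    ‖Ideal.Quotient.mk I x‖ * ‖Ideal.Quotient.mk I x‖ ≤ ‖h‖ + 1 / (2 * Real.sqrt t) := by
  have hpos : ∀ s : ℝ, 0 < 1 + t * s ^ 2 := fun s => by positivity
  have hc1 : Continuous (fun s : ℝ => 1 / (1 + t * s ^ 2)) := by
    refine continuous_const.div (by fun_prop) (fun s => (hpos s).ne')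
  have hc2 : Continuous (fun s : ℝ => t * s / (1 + t * s ^ 2)) := by
    refine Continuous.div (by fun_prop) (by fun_prop) (fun s => (hpos s).ne')
  set f : B := cfc (fun s : ℝ => 1 / (1 + t * s ^ 2)) j with hf
  set g : B := cfc (fun s : ℝ => t * s / (1 + t * s ^ 2)) j with hg
  have hfs : IsSelfAdjoint f := cfc_predicate _ _
  -- `1 - f = j * g`
  have h1 : 1 - f = j * g := by
    have e1 : (1 : B) = cfc (fun _ : ℝ => (1 : ℝ)) j := (cfc_const_one ℝ j).symm
    have e2 : j * g = cfc (fun s : ℝ => s * (t * s / (1 + t * s ^ 2))) j := by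
      conv_lhs => rw [← cfc_id' ℝ j]
      rw [hg, cfc_id' ℝ j, cfc_mul (fun s : ℝ => s) _ j continuousOn_id hc2.continuousOn,
        cfc_id' ℝ j]
    rw [e2, hf]
    nth_rewrite 1 [e1]
    rw [← cfc_sub (fun _ : ℝ => (1 : ℝ)) _ j continuousOn_const hc1.continuousOn]
    congr 1
    funext s
    have := (hpos s).ne'
    field_simp
    ring
  have h2 : 1 - f ∈ I := by
    rw [h1]
    exact I.mul_mem_right g hj
  have h3 : Ideal.Quotient.mk I x = Ideal.Quotient.mk I (x * f) := by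
    rw [Ideal.Quotient.eq]
    have : x - x * f = x * (1 - f) := by rw [mul_sub, mul_one]
    rw [this]
    exact I.mul_mem_left x h2
  have h4 : ‖Ideal.Quotient.mk I x‖ ≤ ‖x * f‖ := by
    rw [h3]; exact quo_norm_mk_le I _
  have h5 : ‖x * f‖ * ‖x * f‖ = ‖f * h * f - f * j * f‖ := by
    rw [← CStarRing.norm_star_mul_self]
    congr 1
    rw [star_mul, hfs.star_eq, hh]
    noncomm_ring
  have hf1 : ‖f‖ ≤ 1 := by
    refine norm_cfc_le zero_le_one fun s _ => ?_
    rw [Real.norm_of_nonneg (by have := hpos s; positivity)]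
    rw [div_le_one (hpos s)]
    nlinarith [sq_nonneg s]
  have h6 : ‖f * h * f‖ ≤ ‖h‖ := by
    calc ‖f * h * f‖ ≤ ‖f * h‖ * ‖f‖ := norm_mul_le _ _
      _ ≤ ‖f‖ * ‖h‖ * ‖f‖ := by gcongr; exact norm_mul_le _ _
      _ ≤ 1 * ‖h‖ * 1 := by gcongr
      _ = ‖h‖ := by ring
  have h7 : f * j * f = cfc (fun s : ℝ => 1 / (1 + t * s ^ 2) * s * (1 / (1 + t * s ^ 2))) j := by
    rw [cfc_mul (fun s : ℝ => 1 / (1 + t * s ^ 2) * s) _ j
      (hc1.mul continuous_id).continuousOn hc1.continuousOn,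
      cfc_mul (fun s : ℝ => 1 / (1 + t * s ^ 2)) (fun s => s) j hc1.continuousOn continuousOn_id,
      cfc_id' ℝ j]
  have h8 : ‖f * j * f‖ ≤ 1 / (2 * Real.sqrt t) := by
    rw [h7]
    refine norm_cfc_le (by positivity) fun s _ => ?_
    have hst : 0 < Real.sqrt t := Real.sqrt_pos.2 ht
    have hp := hpos s
    have key : 2 * Real.sqrt t * |s| ≤ 1 + t * s ^ 2 := by
      have h9 : (Real.sqrt t * |s|) ^ 2 = t * s ^ 2 := by
        rw [mul_pow, Real.sq_sqrt ht.le, sq_abs]
      nlinarith [sq_nonneg (Real.sqrt t * |s| - 1)]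
    rw [norm_mul, norm_mul, Real.norm_eq_abs, Real.norm_eq_abs, abs_of_pos (by positivity)]
    have h10 : 1 / (1 + t * s ^ 2) ≤ 1 := by
      rw [div_le_one hp]; nlinarith [sq_nonneg s]
    calc 1 / (1 + t * s ^ 2) * |s| * (1 / (1 + t * s ^ 2))
        ≤ 1 * |s| * (1 / (1 + t * s ^ 2)) := by gcongr
      _ = |s| / (1 + t * s ^ 2) := by ring
      _ ≤ 1 / (2 * Real.sqrt t) := by
        rw [div_le_div_iff₀ hp (by positivity)]
        linarith
  calc ‖Ideal.Quotient.mk I x‖ * ‖Ideal.Quotient.mk I x‖ ≤ ‖x * f‖ * ‖x * f‖ := by gcongr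
    _ = ‖f * h * f - f * j * f‖ := h5
    _ ≤ ‖f * h * f‖ + ‖f * j * f‖ := norm_sub_le _ _
    _ ≤ _ := add_le_add h6 h8

lemma quo_cstar (hs : ∀ x ∈ I, star x ∈ I) (x : B) :
    ‖Ideal.Quotient.mk I x‖ * ‖Ideal.Quotient.mk I x‖ ≤ ‖Ideal.Quotient.mk I (star x * x)‖ := by
  refine le_of_forall_pos_le_add fun ε hε => ?_
  obtain ⟨h, h1, h2⟩ := quo_norm_mk_lt I (Ideal.Quotient.mk I (star x * x)) (half_pos hε)
  rw [Ideal.Quotient.eq] at h1
  set h' : B := (1 / 2 : ℝ) • (h + star h) with hh'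
  have h3 : ‖h'‖ ≤ ‖h‖ := by
    rw [hh', norm_smul]
    have : ‖h + star h‖ ≤ ‖h‖ + ‖h‖ := (norm_add_le _ _).trans (by rw [norm_star])
    rw [Real.norm_of_nonneg (by norm_num)]
    linarith
  set j : B := h' - star x * x with hj
  have h4 : j = (1 / 2 : ℝ) • ((h - star x * x) + star (h - star x * x)) := by
    rw [hj, hh', star_sub, star_mul, star_star]
    have : star x * x = (1 / 2 : ℝ) • (star x * x + star x * x) := by
      rw [← two_smul ℝ (star x * x), smul_smul]; norm_num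
    conv_lhs => rw [this]
    rw [← smul_sub]
    congr 1
    abel
  have h5 : j ∈ I := by
    rw [h4]
    have h6 : (h - star x * x) + star (h - star x * x) ∈ I := I.add_mem h1 (hs _ h1)
    have h7 : (1 / 2 : ℝ) • ((h - star x * x) + star (h - star x * x)) =
      ((1 / 2 : ℝ) • (1 : B)) * ((h - star x * x) + star (h - star x * x)) := by
      rw [smul_mul_assoc, one_mul]
    rw [h7]
    exact I.mul_mem_left _ h6
  have h6 : IsSelfAdjoint j := by
    rw [h4]
    exact IsSelfAdjoint.smul (by simp [isSelfAdjoint_iff]) (IsSelfAdjoint.add_star_self _)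
  have h7 : h' = star x * x + j := by rw [hj]; abel
  have h8 := quo_cstar_aux I x h' j h5 h6 h7 ((1 / ε) ^ 2) (by positivity)
  rw [Real.sqrt_sq (by positivity)] at h8
  have h9 : 1 / (2 * (1 / ε)) = ε / 2 := by field_simp
  rw [h9] at h8
  linarith

/-- the norm structure on the quotient -/
@[reducible] def quoRing (hI : IsClosed (I : Set B)) : NormedRing (B ⧸ I) :=
  haveI := hI
  { Submodule.Quotient.normedAddCommGroup I, Ideal.Quotient.ring I with
    dist_eq := dist_eq_norm_neg_add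
    norm_mul_le := quo_mul_le I }

/-- the star on the quotient -/
def quoStarFun (a : B ⧸ I) : B ⧸ I :=
  Ideal.Quotient.mk I (star (Function.surjInv Ideal.Quotient.mk_surjective a))

lemma quoStarFun_mk (hs : ∀ x ∈ I, star x ∈ I) (x : B) :
    quoStarFun I (Ideal.Quotient.mk I x) = Ideal.Quotient.mk I (star x) := by
  unfold quoStarFun
  rw [Ideal.Quotient.eq, ← star_sub]
  apply hs
  rw [← Ideal.Quotient.eq]
  exact Function.surjInv_eq _ _

/-- the quotient C*-algebra -/
@[reducible] def quoCStar (hI : IsClosed (I : Set B)) (hs : ∀ x ∈ I, star x ∈ I) :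
    CStarAlgebra (B ⧸ I) :=
  letI i1 := quoRing I hI
  letI i2 : StarRing (B ⧸ I) :=
    { star := quoStarFun I
      star_involutive := fun a => by
        obtain ⟨x, rfl⟩ := Ideal.Quotient.mk_surjective a
        change quoStarFun I (quoStarFun I (Ideal.Quotient.mk I x)) = Ideal.Quotient.mk I x
        rw [quoStarFun_mk I hs, quoStarFun_mk I hs, star_star]
      star_mul := fun a b => by
        obtain ⟨x, rfl⟩ := Ideal.Quotient.mk_surjective a
        obtain ⟨y, rfl⟩ := Ideal.Quotient.mk_surjective b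
        change quoStarFun I (Ideal.Quotient.mk I x * Ideal.Quotient.mk I y) =
          quoStarFun I _ * quoStarFun I _
        rw [← map_mul, quoStarFun_mk I hs, quoStarFun_mk I hs, quoStarFun_mk I hs, ← map_mul,
          star_mul]
      star_add := fun a b => by
        obtain ⟨x, rfl⟩ := Ideal.Quotient.mk_surjective a
        obtain ⟨y, rfl⟩ := Ideal.Quotient.mk_surjective b
        change quoStarFun I (Ideal.Quotient.mk I x + Ideal.Quotient.mk I y) =
          quoStarFun I _ + quoStarFun I _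
        rw [← map_add, quoStarFun_mk I hs, quoStarFun_mk I hs, quoStarFun_mk I hs, ← map_add,
          star_add] }
  haveI i3 : CStarRing (B ⧸ I) := ⟨fun a => by
    obtain ⟨x, rfl⟩ := Ideal.Quotient.mk_surjective a
    change _ ≤ ‖quoStarFun I (Ideal.Quotient.mk I x) * Ideal.Quotient.mk I x‖
    rw [quoStarFun_mk I hs, ← map_mul]
    exact quo_cstar I hs x⟩
  letI i4 : NormedAlgebra ℂ (B ⧸ I) :=
    { Ideal.Quotient.algebra ℂ with
      norm_smul_le := fun c a => norm_smul_le c a }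
  haveI i5 : StarModule ℂ (B ⧸ I) := ⟨fun c a => by
    obtain ⟨x, rfl⟩ := Ideal.Quotient.mk_surjective a
    change quoStarFun I (c • Ideal.Quotient.mk I x) = star c • quoStarFun I _
    rw [quoStarFun_mk I hs]
    change quoStarFun I (Ideal.Quotient.mk I (c • x)) = Ideal.Quotient.mk I (star c • star x)
    rw [quoStarFun_mk I hs, star_smul]⟩
  haveI i6 : CompleteSpace (B ⧸ I) := Submodule.Quotient.completeSpace I
  { i1, i2, i3, i4, i5, i6 with }

end QuoConstr

theorem quo : QuoStmt := by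
  intro B _ J hJ h0 hadd hmul hstar
  let I : Ideal B :=
    { carrier := J
      add_mem' := fun {a b} ha hb => hadd a ha b hb
      zero_mem' := h0
      smul_mem' := fun c x hx => (hmul x hx c).1 }
  haveI : I.IsTwoSided := ⟨fun {a} b ha => (hmul a ha b).2⟩
  have hI : IsClosed (I : Set B) := hJ
  have hs : ∀ x ∈ I, star x ∈ I := hstar
  letI : CStarAlgebra (B ⧸ I) := quoCStar I hI hs
  refine ⟨B ⧸ I, quoCStar I hI hs,
    { toFun := Ideal.Quotient.mk I
      map_one' := map_one _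
      map_mul' := map_mul _
      map_zero' := map_zero _
      map_add' := map_add _
      commutes' := fun c => rfl
      map_star' := fun x => (quoStarFun_mk I hs x).symm }, ?_, ?_⟩
  · intro x
    change Ideal.Quotient.mk I x = 0 ↔ x ∈ I
    exact Ideal.Quotient.eq_zero_iff_mem
  · intro a ha
    obtain ⟨r, hr, hr'⟩ := quo_norm_mk_lt I a (sub_pos.2 ha)
    refine ⟨r, hr, ?_⟩
    have : ‖a‖ + (1 - ‖a‖) = 1 := by ring
    exact this ▸ hr'

end Pool.Agent.H3.BDFP
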