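import Mathlib
import Pool.Agent.H33.BDFP.DStmts
import Pool.Agent.H3.BDFP.POLAR
import Pool.Agent.H3.BDFP.QUO

attribute [local instance] Pool.Agent.H33.BDFP.NV.instNACG Pool.Agent.H33.BDFP.NV.instModule
  Pool.Agent.H33.BDFP.NV.instNormedSpace Pool.Agent.H33.BDFP.NV.instFD
  Pool.Agent.H33.BDFP.NV.instComplete

/-!
Module PAIR1 of the project BDFP: the Calkin algebra of a separable Hilbert space.
-/

open scoped ENNReal NNReal Topology InnerProductSpace

noncomputable section

namespace Pool.Agent.H3.BDFP

open Pool.Agent.H33.BDFP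

/-! ## Hilbert bases -/

/-- an infinite-dimensional separable Hilbert space has a Hilbert basis indexed by `ℕ` -/
theorem exists_hilbertBasis_nat (E : Type) [NormedAddCommGroup E] [InnerProductSpace ℂ E]
    [CompleteSpace E] [TopologicalSpace.SeparableSpace E] (h : ¬ FiniteDimensional ℂ E) :
    Nonempty (HilbertBasis ℕ ℂ E) := by
  obtain ⟨w, b, hb⟩ := exists_hilbertBasis ℂ E
  have hort : Orthonormal ℂ (fun i : w => (i : E)) := by
    have := b.orthonormal
    rwa [hb] at this
  have hdist : ∀ x ∈ w, ∀ y ∈ w, x ≠ y → (1 : ℝ) ≤ dist x y := by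
    intro x hx y hy hxy
    have h1 : ‖x‖ = 1 := hort.1 ⟨x, hx⟩
    have h2 : ‖y‖ = 1 := hort.1 ⟨y, hy⟩
    have h3 : ⟪x, y⟫_ℂ = 0 := hort.2 (i := ⟨x, hx⟩) (j := ⟨y, hy⟩)
      (fun h => hxy (congrArg Subtype.val h))
    have h4 : ‖x - y‖ ^ 2 = 2 := by
      rw [@norm_sub_sq ℂ, h1, h2, h3]
      norm_num
    rw [dist_eq_norm]
    nlinarith [norm_nonneg (x - y)]
  have hcount : w.Countable := by
    refine Set.PairwiseDisjoint.countable_of_isOpen (s := fun x : E => Metric.ball x (1 / 2))
      ?_ (fun x _ => Metric.isOpen_ball) (fun x _ => ⟨x, Metric.mem_ball_self (by norm_num)⟩)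
    intro x hx y hy hxy
    exact Metric.ball_disjoint_ball (by norm_num; exact hdist x hx y hy hxy)
  have hinf : Infinite w := by
    by_contra hfin
    rw [not_infinite_iff_finite] at hfin
    have := Fintype.ofFinite w
    exact h (Module.Finite.of_basis b.toOrthonormalBasis.toBasis)
  have : Countable w := hcount
  obtain ⟨hden⟩ := nonempty_denumerable w
  let e : ℕ ≃ w := (Denumerable.eqv w).symm
  refine ⟨HilbertBasis.mk (v := fun n => b (e n)) (b.orthonormal.comp _ e.injective) ?_⟩
  have h1 : Set.range (fun n => b (e n)) = Set.range b := by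
    have : (fun n => b (e n)) = b ∘ e := rfl
    rw [this, Set.range_comp, e.surjective.range_eq, Set.image_univ]
  rw [h1]
  exact b.dense_span.ge

section PI

variable {H : Type} [NormedAddCommGroup H] [InnerProductSpace ℂ H] [CompleteSpace H]

/-- a partial isometry between two subspaces -/
theorem exists_partial_isometry (K₁ K₂ : Submodule ℂ H) [CompleteSpace K₁] [CompleteSpace K₂]
    (e : K₁ ≃ₗᵢ[ℂ] K₂) :
    ∃ W : H →L[ℂ] H, star W * W = K₁.starProjection ∧ W * star W = K₂.starProjection := by
  set W : H →L[ℂ] H := K₂.subtypeL ∘L (e : K₁ →L[ℂ] K₂) ∘L K₁.orthogonalProjectionOnto with hW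
  have hs : star W =
      K₁.subtypeL ∘L (e.symm : K₂ →L[ℂ] K₁) ∘L K₂.orthogonalProjectionOnto := by
    rw [ContinuousLinearMap.star_eq_adjoint, hW, ContinuousLinearMap.adjoint_comp,
      ContinuousLinearMap.adjoint_comp, Submodule.adjoint_subtypeL,
      Submodule.adjoint_orthogonalProjectionOnto, LinearIsometryEquiv.adjoint_eq_symm]
    rfl
  refine ⟨W, ?_, ?_⟩
  · rw [hs, hW]
    refine ContinuousLinearMap.ext fun x => ?_
    change ((e.symm (K₂.orthogonalProjectionOnto ((e (K₁.orthogonalProjectionOnto x) : K₂) : H)) :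
      K₁) : H) = K₁.starProjection x
    rw [Submodule.orthogonalProjectionOnto_mem_subspace_eq_self, e.symm_apply_apply]
    rfl
  · rw [hs, hW]
    refine ContinuousLinearMap.ext fun x => ?_
    change ((e (K₁.orthogonalProjectionOnto ((e.symm (K₂.orthogonalProjectionOnto x) : K₁) : H)) :
      K₂) : H) = K₂.starProjection x
    rw [Submodule.orthogonalProjectionOnto_mem_subspace_eq_self, e.apply_symm_apply]
    rfl

/-- every operator has a left support projection -/
theorem rickart_operators (Y : H →L[ℂ] H) : ∃ Q : H →L[ℂ] H, IsStarProjection Q ∧ Q * Y = Y ∧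
    ∀ Z : H →L[ℂ] H, Z * Y = 0 → Z * Q = 0 := by
  set K : Submodule ℂ H := (LinearMap.range Y.toLinearMap).topologicalClosure with hK
  have : CompleteSpace K := (Submodule.isClosed_topologicalClosure _).completeSpace_coe
  refine ⟨K.starProjection, isStarProjection_starProjection, ?_, ?_⟩
  · refine ContinuousLinearMap.ext fun x => ?_
    change K.starProjection (Y x) = Y x
    rw [Submodule.starProjection_eq_self_iff]
    exact Submodule.le_topologicalClosure _ ⟨x, rfl⟩
  · intro Z hZ
    have h1 : K ≤ LinearMap.ker Z.toLinearMap := by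
      refine Submodule.topologicalClosure_minimal _ ?_ Z.isClosed_ker
      rintro _ ⟨x, rfl⟩
      exact congrArg (fun T : H →L[ℂ] H => T x) hZ
    refine ContinuousLinearMap.ext fun x => ?_
    change Z (K.starProjection x) = 0
    have h2 : K.starProjection x ∈ K := K.starProjection_apply_mem x
    exact h1 h2

end PI

/-- completing a partial isometry to a unitary element -/
theorem unitary_of_partial {B : Type} [CStarAlgebra B] {P V W : B} (hP : IsStarProjection P)
    (hV : star V * V = P) (hVP : V * P = V) (hW : star W * W = 1 - P)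
    (hW' : W * star W = 1 - V * star V) : V + W ∈ unitary B ∧ (V + W) * P = V := by
  have hPi : P * P = P := hP.isIdempotentElem
  have hPs : star P = P := hP.isSelfAdjoint.star_eq
  have h1 : W * P = 0 := by
    rw [← CStarRing.star_mul_self_eq_zero_iff, star_mul, hPs]
    calc P * star W * (W * P) = P * (star W * W) * P := by noncomm_ring
      _ = P * (1 - P) * P := by rw [hW]
      _ = 0 := by rw [hP.mul_one_sub_self, zero_mul]
  have h2 : star V * W = 0 := by
    rw [← CStarRing.mul_star_self_eq_zero_iff, star_mul, star_star]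
    calc star V * W * (star W * V) = star V * (W * star W) * V := by noncomm_ring
      _ = star V * (1 - V * star V) * V := by rw [hW']
      _ = star V * V - (star V * V) * (star V * V) := by noncomm_ring
      _ = 0 := by rw [hV, hPi, sub_self]
  have h3 : star W * V = 0 := by
    have := congrArg star h2
    rwa [star_mul, star_star, star_zero] at this
  have h4 : V * star W = 0 := by
    have h5 : P * star W = 0 := by
      have := congrArg star h1
      rwa [star_mul, hPs, star_zero] at this
    calc V * star W = V * P * star W := by rw [hVP]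
      _ = V * (P * star W) := by noncomm_ring
      _ = 0 := by rw [h5, mul_zero]
  have h5 : W * star V = 0 := by
    have := congrArg star h4
    rwa [star_mul, star_star, star_zero] at this
  refine ⟨?_, ?_⟩
  · rw [Unitary.mem_iff]
    constructor
    · rw [star_add]
      calc (star V + star W) * (V + W) =
          star V * V + star V * W + (star W * V + star W * W) := by noncomm_ring
        _ = 1 := by rw [hV, h2, h3, hW]; abel
    · rw [star_add]
      calc (V + W) * (star V + star W) =
          V * star V + V * star W + (W * star V + W * star W) := by noncomm_ring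
        _ = 1 := by rw [h4, h5, hW']; abel
  · rw [add_mul, hVP, h1, add_zero]

theorem pair1 (hquo : QuoStmt) : Pair1Stmt := by
  intro H _ _ _ _ hinf
  have hJc : IsClosed {T : H →L[ℂ] H | IsCompactOperator (⇑T)} :=
    isClosed_setOfPred_isCompactOperator
  have hJmul : ∀ x ∈ {T : H →L[ℂ] H | IsCompactOperator (⇑T)}, ∀ y : H →L[ℂ] H,
      y * x ∈ {T : H →L[ℂ] H | IsCompactOperator (⇑T)} ∧
        x * y ∈ {T : H →L[ℂ] H | IsCompactOperator (⇑T)} := by
    intro x hx y
    exact ⟨IsCompactOperator.clm_comp (f := ⇑x) hx y, IsCompactOperator.comp_clm (f := ⇑x) hx y⟩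
  obtain ⟨A, hA, π, hπ, hlift⟩ := hquo (H →L[ℂ] H) {T : H →L[ℂ] H | IsCompactOperator (⇑T)}
    hJc isCompactOperator_zero (fun x hx y hy => IsCompactOperator.add hx hy) hJmul
    (fun x hx => star_mem_of_closed _ hJc hJmul hx)
  have hnt : Nontrivial A := by
    refine ⟨⟨1, 0, fun h => ?_⟩⟩
    have h1 : π 1 = 0 := by rw [map_one, h]
    have h2 : IsCompactOperator (⇑(1 : H →L[ℂ] H)) := (hπ 1).1 h1
    exact hinf (FiniteDimensional.of_isCompactOperator_id (E := H) h2)
  have hsurj : Function.Surjective π := by
    intro a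
    set c : ℝ := ‖a‖ + 1 with hc
    have hc0 : 0 < c := by positivity
    have h1 : ‖((c : ℂ)⁻¹) • a‖ < 1 := by
      rw [norm_smul, norm_inv, Complex.norm_real, Real.norm_of_nonneg hc0.le,
        inv_mul_lt_iff₀ hc0]
      linarith
    obtain ⟨X, hX, -⟩ := hlift _ h1
    refine ⟨(c : ℂ) • X, ?_⟩
    rw [map_smul, hX, smul_smul, mul_inv_cancel₀ (by exact_mod_cast hc0.ne'), one_smul]
  refine ⟨A, hA, hnt, π, ⟨hlift, rickart_operators, ?_⟩, hπ⟩
  intro y hy hyu η hη
  obtain ⟨P, V, hP, hVV, hVP, hu1, hu2, hU⟩ := polar_core π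
    (AddMonoidHomClass.continuous_of_bound π 1 (fun x => by
      rw [one_mul]; exact NonUnitalStarAlgHom.norm_apply_le π x)) hsurj
    rickart_operators y hy η hη
  have := UniformSpace.secondCountable_of_separable H
  have key : ∀ Q : H →L[ℂ] H, IsStarProjection Q → π Q ≠ 1 →
      ∃ (K : Submodule ℂ H) (_ : CompleteSpace K), 1 - Q = K.starProjection ∧
        Nonempty (HilbertBasis ℕ ℂ K) := by
    intro Q hQ hQ1
    have hQi : Q * Q = Q := hQ.isIdempotentElem
    set K : Submodule ℂ H := LinearMap.ker Q.toLinearMap with hK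
    have hKc : IsClosed (K : Set H) := Q.isClosed_ker
    have hKC : CompleteSpace K := hKc.completeSpace_coe
    have h1 : 1 - Q = K.starProjection := by
      refine ContinuousLinearMap.IsStarProjection.ext hQ.one_sub
        isStarProjection_starProjection ?_
      ext x
      constructor
      · rintro ⟨z, rfl⟩
        refine ⟨(1 - Q) z, ?_⟩
        change K.starProjection ((1 - Q) z) = (1 - Q) z
        rw [Submodule.starProjection_eq_self_iff]
        change Q ((1 - Q) z) = 0
        change (Q * (1 - Q)) z = 0
        rw [hQ.mul_one_sub_self]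
        rfl
      · rintro ⟨z, rfl⟩
        refine ⟨K.starProjection z, ?_⟩
        change (1 - Q) (K.starProjection z) = K.starProjection z
        have h2 : K.starProjection z ∈ K := K.starProjection_apply_mem z
        have h3 : Q (K.starProjection z) = 0 := h2
        change K.starProjection z - Q (K.starProjection z) = K.starProjection z
        rw [h3, sub_zero]
    refine ⟨K, hKC, h1, ?_⟩
    apply exists_hilbertBasis_nat K
    intro hfd
    apply hQ1
    have h2 : IsCompactOperator (⇑(1 - Q : H →L[ℂ] H)) := by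
      rw [h1]
      have : ProperSpace K := FiniteDimensional.proper ℂ K
      exact (isCompactOperator_of_locallyCompactSpace_dom
        K.orthogonalProjectionOnto).clm_comp K.subtypeL
    have h3 : π (1 - Q) = 0 := (hπ _).2 h2
    rw [map_sub, map_one, sub_eq_zero] at h3
    exact h3.symm
  have hP1 : π P ≠ 1 := fun h => hyu (hu1 h)
  have hR : IsStarProjection (V * star V) := by
    refine ⟨?_, IsSelfAdjoint.mul_star_self V⟩
    change V * star V * (V * star V) = V * star V
    calc V * star V * (V * star V) = V * (star V * V) * star V := by noncomm_ring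
      _ = V * star V := by rw [hVV, hVP]
  have hR1 : π (V * star V) ≠ 1 := fun h => hyu (hu2 h)
  obtain ⟨K₁, hK₁, hK₁P, ⟨b₁⟩⟩ := key P hP hP1
  obtain ⟨K₂, hK₂, hK₂P, ⟨b₂⟩⟩ := key (V * star V) hR hR1
  obtain ⟨W, hW, hW'⟩ := exists_partial_isometry K₁ K₂ (b₁.repr.trans b₂.repr.symm)
  have hUn := unitary_of_partial hP hVV hVP (hW.trans hK₁P.symm) (hW'.trans hK₂P.symm)
  exact ⟨V + W, hUn.1, hU _ hUn.2⟩

end Pool.Agent.H3.BDFP
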